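import Mathlib

/-!
# Matrix exponentials of generators `M - 1`, as Poisson mixtures of the powers of `M`
-/

set_option autoImplicit false

open Finset Filter Topology

namespace Pool.Agent.R983

noncomputable section

theorem hasSum_congr1 {f g : ℕ → ℝ} {a : ℝ} (h : ∀ k, f k = g k) : HasSum f a ↔ HasSum g a := by
  rw [funext h]

variable {V : Type*} [Fintype V] [DecidableEq V]

set_option backward.isDefEq.respectTransparency false in
theorem hasSum_exp (A : Matrix V V ℝ) :
    HasSum (fun k : ℕ => ((k.factorial : ℝ)⁻¹) • A ^ k) (NormedSpace.exp A) :=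
  open scoped Matrix.Norms.Operator in NormedSpace.exp_series_hasSum_exp' (𝕂 := ℝ) A

theorem hasSum_exp_apply (A : Matrix V V ℝ) (x y : V) :
    HasSum (fun k : ℕ => ((k.factorial : ℝ)⁻¹) * (A ^ k) x y) ((NormedSpace.exp A) x y) :=
  Pi.hasSum.mp (Pi.hasSum.mp (hasSum_exp A) x) y

/-- `e^{t (P - 1)}` -/
def H (P : Matrix V V ℝ) (t : ℝ) : Matrix V V ℝ := NormedSpace.exp (t • (P - 1))

theorem exp_scalar (c : ℝ) : NormedSpace.exp (c • (1 : Matrix V V ℝ)) = Real.exp c • 1 := by
  rw [← Matrix.diagonal_one, ← Matrix.diagonal_smul, Matrix.exp_diagonal, ← Matrix.diagonal_smul]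
  congr 1
  ext i
  rw [Pi.coe_exp]
  simp [Real.exp_eq_exp_ℝ]

theorem H_eq (P : Matrix V V ℝ) (t : ℝ) :
    H P t = Real.exp (-t) • NormedSpace.exp (t • P) := by
  have h1 : t • (P - 1) = (-t) • (1 : Matrix V V ℝ) + t • P := by
    rw [smul_sub, neg_smul, sub_eq_neg_add]
  rw [H, h1, Matrix.exp_add_of_commute, exp_scalar]
  · rw [smul_mul_assoc, one_mul]
  · exact (Commute.one_left _).smul_left _

theorem H_hasSum (P : Matrix V V ℝ) (t : ℝ) (x y : V) :
    HasSum (fun k : ℕ => Real.exp (-t) * (t ^ k / k.factorial) * (P ^ k) x y) (H P t x y) := by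
  have h := (hasSum_exp_apply (t • P) x y).mul_left (Real.exp (-t))
  rw [H_eq, Matrix.smul_apply, smul_eq_mul]
  refine (hasSum_congr1 fun k => ?_).mpr h
  rw [smul_pow, Matrix.smul_apply, smul_eq_mul]
  ring

theorem H_mulVec_hasSum (P : Matrix V V ℝ) (t : ℝ) (f : V → ℝ) (x : V) :
    HasSum (fun k : ℕ => Real.exp (-t) * (t ^ k / k.factorial) * (P ^ k).mulVec f x)
      ((H P t).mulVec f x) := by
  have h := hasSum_sum (s := (univ : Finset V)) fun y _ => (H_hasSum P t x y).mul_right (f y)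
  refine (hasSum_congr1 fun k => ?_).mpr h
  change _ * (∑ y, (P ^ k) x y * f y) = _
  rw [Finset.mul_sum]
  refine Finset.sum_congr rfl fun y _ => ?_
  ring

theorem poisson_hasSum (t β : ℝ) :
    HasSum (fun k : ℕ => Real.exp (-t) * (t ^ k / k.factorial) * β ^ k)
      (Real.exp ((β - 1) * t)) := by
  have h := (NormedSpace.expSeries_div_hasSum_exp (𝔸 := ℝ) (β * t)).mul_left (Real.exp (-t))
  rw [← Real.exp_eq_exp_ℝ, ← Real.exp_add] at h
  rw [show (β - 1) * t = -t + β * t by ring]
  refine (hasSum_congr1 fun k => ?_).mpr h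
  rw [mul_pow]; ring

theorem H_row {P : Matrix V V ℝ} (hP : ∀ x, ∑ y, P x y = 1) (t : ℝ) (x : V) :
    ∑ y, H P t x y = 1 := by
  have hpow : ∀ k x, ∑ y, (P ^ k) x y = 1 := by
    intro k
    induction k with
    | zero => intro x; simp [Matrix.one_apply]
    | succ k ih =>
      intro x
      rw [pow_succ']
      simp only [Matrix.mul_apply]
      rw [Finset.sum_comm]
      simp only [← Finset.mul_sum, ih, mul_one, hP]
  have h := hasSum_sum (s := (univ : Finset V)) fun y _ => H_hasSum P t x y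
  have h2 := poisson_hasSum t 1
  rw [sub_self, zero_mul, Real.exp_zero] at h2
  refine h.unique ?_
  refine (hasSum_congr1 fun k => ?_).mpr h2
  rw [← Finset.mul_sum, hpow, one_pow]

theorem pow_nonneg' {P : Matrix V V ℝ} (hP : ∀ x y, 0 ≤ P x y) (k : ℕ) (x y : V) :
    0 ≤ (P ^ k) x y := by
  induction k generalizing x y with
  | zero => rw [pow_zero, Matrix.one_apply]; split_ifs <;> norm_num
  | succ k ih =>
    rw [pow_succ', Matrix.mul_apply]
    exact Finset.sum_nonneg fun w _ => mul_nonneg (hP _ _) (ih _ _)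

theorem H_nonneg {P : Matrix V V ℝ} (hP : ∀ x y, 0 ≤ P x y) {t : ℝ} (ht : 0 ≤ t) (x y : V) :
    0 ≤ H P t x y :=
  (H_hasSum P t x y).nonneg fun k => mul_nonneg (by positivity) (pow_nonneg' hP k x y)

/-- If `M ≥ 0`, `M 1 ≤ 1`, `h` satisfies `M h ≤ ρ h + δ` then
`e^{t(M-1)} h ≤ e^{-(1-ρ) t} h + δ / (1 - ρ)`. -/
theorem H_decay {M : Matrix V V ℝ} (hM : ∀ x y, 0 ≤ M x y) (hM1 : ∀ x, ∑ y, M x y ≤ 1)
    {h : V → ℝ} {ρ δ : ℝ} (hρ0 : 0 ≤ ρ) (hρ : ρ < 1) (hδ : 0 ≤ δ)
    (hh : ∀ x, M.mulVec h x ≤ ρ * h x + δ) {t : ℝ} (ht : 0 ≤ t) (x : V) :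
    (H M t).mulVec h x ≤ Real.exp ((ρ - 1) * t) * h x + δ / (1 - ρ) := by
  have h1ρ : 0 < 1 - ρ := by linarith
  set K := δ / (1 - ρ) with hK
  have hK0 : 0 ≤ K := div_nonneg hδ h1ρ.le
  have hKδ : ρ * K + δ = K := by rw [hK]; field_simp; ring
  have hpow : ∀ k x, (M ^ k).mulVec h x ≤ ρ ^ k * h x + K := by
    intro k
    induction k with
    | zero => intro x; simp [hK0]
    | succ k ih =>
      intro x
      rw [pow_succ, ← Matrix.mulVec_mulVec]
      -- M^k (M h) ≤ M^k (ρ h + δ)
      have hmono : ∀ u v : V → ℝ, (∀ y, u y ≤ v y) → (M ^ k).mulVec u x ≤ (M ^ k).mulVec v x := by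
        intro u v huv
        simp only [Matrix.mulVec, dotProduct]
        exact Finset.sum_le_sum fun y _ =>
          mul_le_mul_of_nonneg_left (huv y) (pow_nonneg' hM k x y)
      have hrow : ∀ j x, ∑ y, (M ^ j) x y ≤ 1 := by
        intro j
        induction j with
        | zero => intro x; simp [Matrix.one_apply]
        | succ j ihj =>
          intro x
          rw [pow_succ']
          simp only [Matrix.mul_apply]
          rw [Finset.sum_comm]
          simp only [← Finset.mul_sum]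
          refine le_trans (Finset.sum_le_sum fun w _ => ?_) (hM1 x)
          exact mul_le_of_le_one_right (hM _ _) (ihj w)
      refine (hmono _ (fun y => ρ * h y + δ) hh).trans ?_
      have h3 : (M ^ k).mulVec (fun y => ρ * h y + δ) x =
          ρ * (M ^ k).mulVec h x + δ * ∑ y, (M ^ k) x y := by
        simp only [Matrix.mulVec, dotProduct, Finset.mul_sum]
        rw [← Finset.sum_add_distrib]
        exact Finset.sum_congr rfl fun y _ => by ring
      rw [h3]
      have h4 := mul_le_mul_of_nonneg_left (ih x) hρ0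
      have h5 := mul_le_mul_of_nonneg_left (hrow k x) hδ
      calc ρ * (M ^ k).mulVec h x + δ * ∑ y, (M ^ k) x y
          ≤ ρ * (ρ ^ k * h x + K) + δ * 1 := add_le_add h4 h5
        _ = ρ ^ (k + 1) * h x + (ρ * K + δ) := by ring
        _ = _ := by rw [hKδ]
  have hs := H_mulVec_hasSum M t h x
  have h1 := (poisson_hasSum t ρ).mul_right (h x)
  have h2 := (poisson_hasSum t 1).mul_right K
  rw [sub_self, zero_mul, Real.exp_zero, one_mul] at h2
  refine hasSum_le (fun k => ?_) hs (h1.add h2)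
  have h6 : 0 ≤ Real.exp (-t) * (t ^ k / k.factorial) := by positivity
  have h7 := mul_le_mul_of_nonneg_left (hpow k x) h6
  rw [one_pow]
  linarith

end

end Pool.Agent.R983
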