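import Mathlib

/-!
# First hitting probabilities of finite reversible Markov chains
-/

set_option autoImplicit false

open Finset

namespace Pool.Agent.R983.Surprise

variable {S : Type*} [Fintype S] [DecidableEq S]

/-- `P` is a transition matrix on the finite set `S` and `π` is a probability distribution, positive
on every state, for which the chain is reversible (so `π` is stationary). -/
structure IsReversibleChain (P : Matrix S S ℝ) (π : S → ℝ) : Prop where
  nonneg : ∀ u v, 0 ≤ P u v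
  row : ∀ u, ∑ v, P u v = 1
  pos : ∀ u, 0 < π u
  total : ∑ u, π u = 1
  reversible : ∀ u v, π u * P u v = π v * P v u

/-- `hit P y t x` is the probability `𝐏_x(τ(y) = t)` that the chain started at `x` first reaches
`y` at time exactly `t` (defined by conditioning on the first step). -/
noncomputable def hit (P : Matrix S S ℝ) (y : S) : ℕ → S → ℝ
  | 0, x => if x = y then 1 else 0
  | t + 1, x => if x = y then 0 else ∑ z, P x z * hit P y t z

/-! ### The upper bound for chains with holding probabilities -/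

/-- the operator of the chain killed at `y` -/
noncomputable def T (P : Matrix S S ℝ) (y : S) (f : S → ℝ) (u : S) : ℝ :=
  if u = y then 0 else ∑ v, P u v * f v

/-- inner product -/
noncomputable def ip (π f g : S → ℝ) : ℝ := ∑ u, π u * (f u * g u)

theorem T_y (P : Matrix S S ℝ) (y : S) (f : S → ℝ) : T P y f y = 0 := by simp [T]

theorem ip_T {P : Matrix S S ℝ} {π : S → ℝ} (h : IsReversibleChain P π) (y : S)
    {f g : S → ℝ} (hf : f y = 0) (hg : g y = 0) : ip π (T P y f) g = ip π f (T P y g) := by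
  have key : ∀ f g : S → ℝ, g y = 0 → ip π (T P y f) g = ∑ u, ∑ v, π u * P u v * (f v * g u) := by
    intro f g hg
    unfold ip
    refine Finset.sum_congr rfl fun u _ => ?_
    by_cases hu : u = y
    · subst hu
      rw [hg]
      simp
    · simp only [T, if_neg hu]
      rw [Finset.sum_mul, Finset.mul_sum]
      exact Finset.sum_congr rfl fun v _ => by ring
  rw [key f g hg]
  have h2 : ip π f (T P y g) = ip π (T P y g) f := by
    unfold ip
    exact Finset.sum_congr rfl fun u _ => by ring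
  rw [h2, key g f hf, Finset.sum_comm]
  refine Finset.sum_congr rfl fun u _ => Finset.sum_congr rfl fun v _ => ?_
  rw [h.reversible v u]
  ring

theorem iter_y (P : Matrix S S ℝ) (y : S) {f : S → ℝ} (hf : f y = 0) (s : ℕ) :
    ((T P y)^[s] f) y = 0 := by
  cases s with
  | zero => exact hf
  | succ s => rw [Function.iterate_succ_apply']; exact T_y P y _

theorem ip_iter {P : Matrix S S ℝ} {π : S → ℝ} (h : IsReversibleChain P π) (y : S)
    {f g : S → ℝ} (hf : f y = 0) (hg : g y = 0) (s : ℕ) :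
    ip π ((T P y)^[s] f) g = ip π f ((T P y)^[s] g) := by
  induction s generalizing g with
  | zero => rfl
  | succ s ih =>
    rw [Function.iterate_succ_apply', ip_T h y (iter_y P y hf s) hg, ih (T_y P y g),
      ← Function.iterate_succ_apply]

/-- `g_0` -/
noncomputable def g0 (y : S) (u : S) : ℝ := if u = y then 0 else 1

/-- `g_s(u) = P_u(τ(y) > s)` -/
noncomputable def gg (P : Matrix S S ℝ) (y : S) (s : ℕ) : S → ℝ := (T P y)^[s] (g0 y)

theorem gg_succ (P : Matrix S S ℝ) (y : S) (s : ℕ) : gg P y (s + 1) = T P y (gg P y s) :=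
  Function.iterate_succ_apply' _ _ _

theorem gg_y (P : Matrix S S ℝ) (y : S) (s : ℕ) : gg P y s y = 0 :=
  iter_y P y (by simp [g0]) s

theorem hit_eq {P : Matrix S S ℝ} {π : S → ℝ} (h : IsReversibleChain P π) (y : S) (t : ℕ) (u : S) :
    hit P y (t + 1) u = gg P y t u - gg P y (t + 1) u := by
  induction t generalizing u with
  | zero =>
    rw [gg_succ]
    by_cases hu : u = y
    · subst hu; simp [hit, gg_y, T_y]
    · simp only [hit, if_neg hu, T, gg, Function.iterate_zero, id, g0]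
      simp only [mul_ite, mul_one, mul_zero]
      rw [← h.row u, ← Finset.sum_sub_distrib]
      refine Finset.sum_congr rfl fun v _ => ?_
      split_ifs <;> ring
  | succ t ih =>
    rw [gg_succ P y (t + 1)]
    by_cases hu : u = y
    · subst hu; simp [hit, gg_y, T_y]
    · rw [hit, if_neg hu]
      have h1 : gg P y (t + 1) u = ∑ v, P u v * gg P y t v := by
        rw [gg_succ, T, if_neg hu]
      rw [h1, T, if_neg hu, ← Finset.sum_sub_distrib]
      refine Finset.sum_congr rfl fun v _ => ?_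
      rw [ih v]; ring

theorem gg_nonneg {P : Matrix S S ℝ} {π : S → ℝ} (h : IsReversibleChain P π) (y : S) (s : ℕ)
    (u : S) : 0 ≤ gg P y s u := by
  induction s generalizing u with
  | zero => simp only [gg, Function.iterate_zero, id, g0]; split_ifs <;> norm_num
  | succ s ih =>
    rw [gg_succ, T]
    split_ifs
    · exact le_rfl
    · exact Finset.sum_nonneg fun v _ => mul_nonneg (h.nonneg _ _) (ih v)

/-- `f_0 = 1_x / π(x)` -/
noncomputable def f0 (π : S → ℝ) (x : S) (u : S) : ℝ := if u = x then 1 / π x else 0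

noncomputable def ff (P : Matrix S S ℝ) (π : S → ℝ) (y x : S) (s : ℕ) : S → ℝ :=
  (T P y)^[s] (f0 π x)

theorem ff_succ (P : Matrix S S ℝ) (π : S → ℝ) (y x : S) (s : ℕ) :
    ff P π y x (s + 1) = T P y (ff P π y x s) := Function.iterate_succ_apply' _ _ _

theorem ff_y (P : Matrix S S ℝ) (π : S → ℝ) {y x : S} (hxy : x ≠ y) (s : ℕ) :
    ff P π y x s y = 0 := iter_y P y (by simp [f0, hxy.symm]) s

theorem ff_nonneg {P : Matrix S S ℝ} {π : S → ℝ} (h : IsReversibleChain P π) (y x : S) (s : ℕ)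
    (u : S) : 0 ≤ ff P π y x s u := by
  induction s generalizing u with
  | zero =>
    simp only [ff, Function.iterate_zero, id, f0]
    have := h.pos x
    split_ifs <;> positivity
  | succ s ih =>
    rw [ff_succ, T]
    split_ifs
    · exact le_rfl
    · exact Finset.sum_nonneg fun v _ => mul_nonneg (h.nonneg _ _) (ih v)

theorem hit_eq_ip {P : Matrix S S ℝ} {π : S → ℝ} (h : IsReversibleChain P π) {y x : S}
    (hxy : x ≠ y) (s r : ℕ) :
    hit P y (s + r + 1) x =
      ip π (ff P π y x s) (fun u => gg P y r u - gg P y (r + 1) u) := by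
  have h1 : ip π (ff P π y x s) (fun u => gg P y r u - gg P y (r + 1) u) =
      ip π (ff P π y x s) (gg P y r) - ip π (ff P π y x s) (gg P y (r + 1)) := by
    unfold ip
    rw [← Finset.sum_sub_distrib]
    exact Finset.sum_congr rfl fun u _ => by ring
  have h2 : ∀ r, ip π (ff P π y x s) (gg P y r) = gg P y (s + r) x := by
    intro r
    rw [ff, ip_iter h y (by simp [f0, hxy.symm]) (gg_y P y r), gg, ← Function.iterate_add_apply]
    change ip π (f0 π x) (gg P y (s + r)) = _
    unfold ip f0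
    rw [Finset.sum_eq_single x]
    · rw [if_pos rfl]
      have := (h.pos x).ne'
      field_simp
    · intro u _ hu; rw [if_neg hu]; ring
    · intro hx; exact absurd (Finset.mem_univ x) hx
  rw [h1, h2, h2, hit_eq h, ← add_assoc]

/-! #### the two-point inequality -/

/-- `Ψ(a) = (1 + a) log (1 + a)` -/
noncomputable def Psi (a : ℝ) : ℝ := (1 + a) * Real.log (1 + a)

theorem Psi_nonneg {a : ℝ} (ha : 0 ≤ a) : 0 ≤ Psi a :=
  mul_nonneg (by linarith) (Real.log_nonneg (by linarith))

theorem Psi_zero : Psi 0 = 0 := by simp [Psi]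

theorem two_point {d a b : ℝ} (hd0 : 0 < d) (hd1 : d < 1) (ha : 0 ≤ a) (hb : 0 ≤ b) :
    Psi (d * a + (1 - d) * b) ≤ d * Psi a + (1 - d) * Psi b -
      d * (1 - d) * (Real.sqrt (1 + a) - Real.sqrt (1 + b)) ^ 2 := by
  set A := 1 + a with hA
  set B := 1 + b with hB
  set M := d * A + (1 - d) * B with hM
  have hA1 : 1 ≤ A := by linarith
  have hB1 : 1 ≤ B := by linarith
  have hd1' : 0 < 1 - d := by linarith
  have hM1 : 1 ≤ M := by nlinarith
  have hMeq : 1 + (d * a + (1 - d) * b) = M := by rw [hM, hA, hB]; ring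
  have sA : 0 < Real.sqrt A := Real.sqrt_pos.mpr (by linarith)
  have sB : 0 < Real.sqrt B := Real.sqrt_pos.mpr (by linarith)
  have sM : 0 < Real.sqrt M := Real.sqrt_pos.mpr (by linarith)
  have qA : Real.sqrt A ^ 2 = A := Real.sq_sqrt (by linarith)
  have qB : Real.sqrt B ^ 2 = B := Real.sq_sqrt (by linarith)
  have qM : Real.sqrt M ^ 2 = M := Real.sq_sqrt (by linarith)
  -- log inequality
  have hlog : ∀ X : ℝ, 1 ≤ X → 2 * (X - Real.sqrt X * Real.sqrt M) ≤
      X * Real.log X - X * Real.log M := by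
    intro X hX
    have sX : 0 < Real.sqrt X := Real.sqrt_pos.mpr (by linarith)
    have qX : Real.sqrt X ^ 2 = X := Real.sq_sqrt (by linarith)
    have h1 := Real.log_le_sub_one_of_pos (div_pos sM sX)
    rw [Real.log_div sM.ne' sX.ne', Real.log_sqrt (by linarith), Real.log_sqrt (by linarith)] at h1
    have h2 : X * (Real.sqrt M / Real.sqrt X) = Real.sqrt X * Real.sqrt M := by
      field_simp; rw [qX]
    have h3 := mul_le_mul_of_nonneg_left h1 (by linarith : (0:ℝ) ≤ X)
    rw [mul_sub, mul_sub, h2] at h3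
    linarith
  have hA2 := mul_le_mul_of_nonneg_left (hlog A hA1) hd0.le
  have hB2 := mul_le_mul_of_nonneg_left (hlog B hB1) hd1'.le
  set p := Real.sqrt A
  set q := Real.sqrt B
  set m := Real.sqrt M
  set w := d * p + (1 - d) * q with hw
  have hw0 : 0 < w := by positivity
  have hid : m ^ 2 - w ^ 2 = d * (1 - d) * (p - q) ^ 2 := by
    rw [qM, hM, ← qA, ← qB, hw]; ring
  have hwm : w ≤ m := by
    by_contra hcon
    push Not at hcon
    have h5 : m ^ 2 < w ^ 2 := by nlinarith
    have h6 : 0 ≤ d * (1 - d) * (p - q) ^ 2 := by positivity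
    linarith
  have hmain : d * (1 - d) * (p - q) ^ 2 ≤ 2 * (m ^ 2 - m * w) := by
    rw [← hid]; nlinarith
  rw [Psi, Psi, Psi, hMeq]
  have e1 : 2 * (m ^ 2 - m * w) = d * (2 * (A - p * m)) + (1 - d) * (2 * (B - q * m)) := by
    rw [qM, hM, hw]; ring
  have e2 : M * Real.log M = d * (A * Real.log M) + (1 - d) * (B * Real.log M) := by
    rw [hM]; ring
  rw [e2]
  nlinarith

theorem sqrt_sq_le {a b : ℝ} (ha : 0 ≤ a) (hb : 0 ≤ b) :
    (Real.sqrt (1 + a) + Real.sqrt (1 + b)) ^ 2 ≤ 2 * ((1 + a) + (1 + b)) := by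
  have qA : Real.sqrt (1 + a) ^ 2 = 1 + a := Real.sq_sqrt (by linarith)
  have qB : Real.sqrt (1 + b) ^ 2 = 1 + b := Real.sq_sqrt (by linarith)
  nlinarith [sq_nonneg (Real.sqrt (1 + a) - Real.sqrt (1 + b))]

/-! #### the non-lazy part -/

/-- the kernel `R` with `P = δ I + (1 - δ) R` -/
noncomputable def RR (P : Matrix S S ℝ) (δ : ℝ) (u v : S) : ℝ :=
  (P u v - if u = v then δ else 0) / (1 - δ)

section lazy

variable {P : Matrix S S ℝ} {π : S → ℝ} {δ : ℝ}

theorem P_sum (hδ1 : δ < 1) (F : S → ℝ) (u : S) :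
    ∑ v, P u v * F v = δ * F u + (1 - δ) * ∑ v, RR P δ u v * F v := by
  have h1 : (1 - δ) ≠ 0 := by intro h; linarith
  rw [Finset.mul_sum]
  have e1 : ∀ v, (1 - δ) * (RR P δ u v * F v) = P u v * F v - (if u = v then δ else 0) * F v := by
    intro v; unfold RR; field_simp
  simp only [e1, Finset.sum_sub_distrib]
  simp

theorem RR_nonneg (h : IsReversibleChain P π) (hδ1 : δ < 1) (hδ : ∀ z, δ ≤ P z z) (u v : S) :
    0 ≤ RR P δ u v := by
  unfold RR
  apply div_nonneg _ (by linarith)
  split_ifs with huv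
  · subst huv; linarith [hδ u]
  · linarith [h.nonneg u v]

theorem RR_row (h : IsReversibleChain P π) (hδ1 : δ < 1) (u : S) : ∑ v, RR P δ u v = 1 := by
  have h1 : (1 - δ) ≠ 0 := by intro h; linarith
  have h2 := P_sum (P := P) hδ1 (fun _ => 1) u
  simp only [mul_one, h.row] at h2
  have h3 : (1 - δ) * (∑ v, RR P δ u v - 1) = 0 := by linarith
  rcases mul_eq_zero.mp h3 with h4 | h4
  · exact absurd h4 h1
  · linarith

theorem RR_rev (h : IsReversibleChain P π) (u v : S) :
    π u * RR P δ u v = π v * RR P δ v u := by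
  unfold RR
  by_cases huv : u = v
  · subst huv; rfl
  · rw [if_neg huv, if_neg (Ne.symm huv), sub_zero, sub_zero, mul_div_assoc', mul_div_assoc',
      h.reversible]

theorem RR_col (h : IsReversibleChain P π) (hδ1 : δ < 1) (F : S → ℝ) :
    ∑ u, ∑ v, π u * RR P δ u v * F v = ∑ v, π v * F v := by
  rw [Finset.sum_comm]
  refine Finset.sum_congr rfl fun v _ => ?_
  have e1 : ∀ u, π u * RR P δ u v * F v = π v * F v * RR P δ v u := by
    intro u; rw [RR_rev h]; ring
  simp only [e1, ← Finset.mul_sum, RR_row h hδ1, mul_one]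

theorem RR_row' (h : IsReversibleChain P π) (hδ1 : δ < 1) (F : S → ℝ) :
    ∑ u, ∑ v, π u * RR P δ u v * F u = ∑ u, π u * F u := by
  refine Finset.sum_congr rfl fun u _ => ?_
  have e1 : ∀ v, π u * RR P δ u v * F u = π u * F u * RR P δ u v := by
    intro v; ring
  simp only [e1, ← Finset.mul_sum, RR_row h hδ1, mul_one]

/-- Dirichlet form -/
theorem dirichlet_eq (h : IsReversibleChain P π) (hδ1 : δ < 1) (y : S) {f : S → ℝ}
    (hf : f y = 0) (g : S → ℝ) :
    ip π f (fun u => g u - T P y g u) =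
      (1 - δ) / 2 * ∑ u, ∑ v, π u * RR P δ u v * ((f u - f v) * (g u - g v)) := by
  have e1 : ip π f (fun u => g u - T P y g u) =
      (1 - δ) * ∑ u, ∑ v, π u * RR P δ u v * (f u * (g u - g v)) := by
    unfold ip
    rw [Finset.mul_sum]
    refine Finset.sum_congr rfl fun u _ => ?_
    by_cases hu : u = y
    · subst hu
      simp [hf]
    · show π u * (f u * (g u - T P y g u)) = _
      rw [T, if_neg hu, P_sum hδ1 g u]
      have e2 : ∑ v, π u * RR P δ u v * (f u * (g u - g v)) =
          π u * f u * (g u * ∑ v, RR P δ u v - ∑ v, RR P δ u v * g v) := by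
        rw [Finset.mul_sum, ← Finset.sum_sub_distrib, Finset.mul_sum]
        exact Finset.sum_congr rfl fun v _ => by ring
      rw [e2, RR_row h hδ1]
      ring
  have e3 : ∑ u, ∑ v, π u * RR P δ u v * ((f u - f v) * (g u - g v)) =
      2 * ∑ u, ∑ v, π u * RR P δ u v * (f u * (g u - g v)) := by
    have e4 : ∑ u, ∑ v, π u * RR P δ u v * (f v * (g v - g u)) =
        ∑ u, ∑ v, π u * RR P δ u v * (f u * (g u - g v)) := by
      rw [Finset.sum_comm]
      refine Finset.sum_congr rfl fun u _ => Finset.sum_congr rfl fun v _ => ?_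
      rw [RR_rev h]
    rw [two_mul]
    nth_rewrite 1 [← e4]
    rw [← Finset.sum_add_distrib]
    refine Finset.sum_congr rfl fun u _ => ?_
    rw [← Finset.sum_add_distrib]
    exact Finset.sum_congr rfl fun v _ => by ring
  rw [e1, e3]
  ring

theorem convexOn_Psi : ConvexOn ℝ (Set.Ici (0:ℝ)) Psi := by
  refine ⟨convex_Ici 0, ?_⟩
  intro a ha b hb p q hp hq hpq
  have h1 := Real.convexOn_mul_log.2 (show (1 + a) ∈ Set.Ici (0:ℝ) from by
      simp only [Set.mem_Ici] at *; linarith)
    (show (1 + b) ∈ Set.Ici (0:ℝ) from by simp only [Set.mem_Ici] at *; linarith) hp hq hpq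
  simp only [smul_eq_mul] at h1 ⊢
  have e1 : p * (1 + a) + q * (1 + b) = 1 + (p * a + q * b) := by
    linear_combination hpq
  rw [e1] at h1
  exact h1

/-- the entropy part -/
noncomputable def E1 (P : Matrix S S ℝ) (π : S → ℝ) (δ : ℝ) (f : S → ℝ) : ℝ :=
  ∑ u, ∑ v, π u * RR P δ u v * (Real.sqrt (1 + f u) - Real.sqrt (1 + f v)) ^ 2

theorem claim1 (h : IsReversibleChain P π) (hδ0 : 0 < δ) (hδ1 : δ < 1) (hδ : ∀ z, δ ≤ P z z)
    (y : S) {f : S → ℝ} (hf : ∀ u, 0 ≤ f u) :
    δ * (1 - δ) * E1 P π δ f ≤ (∑ u, π u * Psi (f u)) - ∑ u, π u * Psi (T P y f u) := by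
  have hR := RR_nonneg h hδ1 hδ
  have hstep : ∀ u, Psi (T P y f u) ≤ ∑ v, RR P δ u v * Psi (δ * f u + (1 - δ) * f v) := by
    intro u
    by_cases hu : u = y
    · rw [hu, T_y, Psi_zero]
      refine Finset.sum_nonneg fun v _ => mul_nonneg (hR _ _) (Psi_nonneg ?_)
      have := hf y; have := hf v
      have : 0 ≤ (1 - δ) * f v := mul_nonneg (by linarith) (hf v)
      have : 0 ≤ δ * f y := mul_nonneg hδ0.le (hf y)
      linarith
    · have e1 : T P y f u = ∑ v, RR P δ u v * (δ * f u + (1 - δ) * f v) := by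
        rw [T, if_neg hu, P_sum hδ1 f u]
        have e2 : ∑ v, RR P δ u v * (δ * f u + (1 - δ) * f v) =
            (δ * f u) * ∑ v, RR P δ u v + (1 - δ) * ∑ v, RR P δ u v * f v := by
          rw [Finset.mul_sum, Finset.mul_sum, ← Finset.sum_add_distrib]
          exact Finset.sum_congr rfl fun v _ => by ring
        rw [e2, RR_row h hδ1, mul_one]
      rw [e1]
      have := convexOn_Psi.map_sum_le (t := Finset.univ) (w := fun v => RR P δ u v)
        (p := fun v => δ * f u + (1 - δ) * f v) (fun v _ => hR u v) (RR_row h hδ1 u)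
        (fun v _ => by
          simp only [Set.mem_Ici]
          have h1 : 0 ≤ (1 - δ) * f v := mul_nonneg (by linarith) (hf v)
          have h2 : 0 ≤ δ * f u := mul_nonneg hδ0.le (hf u)
          linarith)
      simpa only [smul_eq_mul] using this
  have hstep2 : ∀ u, π u * Psi (T P y f u) ≤ ∑ v, π u * RR P δ u v *
      (δ * Psi (f u) + (1 - δ) * Psi (f v) -
      δ * (1 - δ) * (Real.sqrt (1 + f u) - Real.sqrt (1 + f v)) ^ 2) := by
    intro u
    refine (mul_le_mul_of_nonneg_left (hstep u) (h.pos u).le).trans ?_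
    rw [Finset.mul_sum]
    refine Finset.sum_le_sum fun v _ => ?_
    rw [← mul_assoc]
    exact mul_le_mul_of_nonneg_left (two_point hδ0 hδ1 (hf u) (hf v))
      (mul_nonneg (h.pos u).le (hR u v))
  have hsum := Finset.sum_le_sum fun u (_ : u ∈ Finset.univ) => hstep2 u
  have e5 : ∑ u, ∑ v, π u * RR P δ u v * (δ * Psi (f u) + (1 - δ) * Psi (f v) -
      δ * (1 - δ) * (Real.sqrt (1 + f u) - Real.sqrt (1 + f v)) ^ 2) =
      δ * (∑ u, ∑ v, π u * RR P δ u v * Psi (f u)) +
        (1 - δ) * (∑ u, ∑ v, π u * RR P δ u v * Psi (f v)) - δ * (1 - δ) * E1 P π δ f := by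
    rw [E1]
    simp only [Finset.mul_sum, ← Finset.sum_add_distrib, ← Finset.sum_sub_distrib]
    exact Finset.sum_congr rfl fun u _ => Finset.sum_congr rfl fun v _ => by ring
  rw [e5, RR_row' h hδ1 (fun u => Psi (f u)), RR_col h hδ1 (fun u => Psi (f u))] at hsum
  linarith

/-- the martingale part -/
noncomputable def E2 (P : Matrix S S ℝ) (π : S → ℝ) (δ : ℝ) (f g : S → ℝ) : ℝ :=
  ∑ u, ∑ v, π u * RR P δ u v *
    ((Real.sqrt (1 + f u) + Real.sqrt (1 + f v)) ^ 2 * (g u - g v) ^ 2)

theorem variance_le (h : IsReversibleChain P π) (hδ0 : 0 < δ) (hδ1 : δ < 1)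
    (hδ : ∀ z, δ ≤ P z z) (g : S → ℝ) (u : S) :
    δ * (1 - δ) * ∑ v, RR P δ u v * (g u - g v) ^ 2 ≤
      (∑ v, P u v * g v ^ 2) - (∑ v, P u v * g v) ^ 2 := by
  rw [P_sum hδ1 (fun v => g v ^ 2) u, P_sum hδ1 g u]
  set a := ∑ v, RR P δ u v * g v with ha
  set b := ∑ v, RR P δ u v * g v ^ 2 with hb
  have e1 : ∑ v, RR P δ u v * (g u - g v) ^ 2 = g u ^ 2 - 2 * g u * a + b := by
    have e2 : ∀ v, RR P δ u v * (g u - g v) ^ 2 =
        g u ^ 2 * RR P δ u v - 2 * g u * (RR P δ u v * g v) + RR P δ u v * g v ^ 2 := by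
      intro v; ring
    simp only [e2, Finset.sum_add_distrib, Finset.sum_sub_distrib, ← Finset.mul_sum,
      RR_row h hδ1, mul_one, ← ha, ← hb]
  have e3 : a ^ 2 ≤ b := by
    have e4 : 0 ≤ ∑ v, RR P δ u v * (g v - a) ^ 2 :=
      Finset.sum_nonneg fun v _ => mul_nonneg (RR_nonneg h hδ1 hδ u v) (sq_nonneg _)
    have e5 : ∀ v, RR P δ u v * (g v - a) ^ 2 =
        RR P δ u v * g v ^ 2 - 2 * a * (RR P δ u v * g v) + a ^ 2 * RR P δ u v := by
      intro v; ring
    simp only [e5, Finset.sum_add_distrib, Finset.sum_sub_distrib, ← Finset.mul_sum,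
      RR_row h hδ1, mul_one, ← ha, ← hb] at e4
    nlinarith
  rw [e1]
  have e6 : 0 ≤ (1 - δ) ^ 2 * (b - a ^ 2) := mul_nonneg (sq_nonneg _) (by linarith)
  nlinarith

theorem stat (h : IsReversibleChain P π) (F : S → ℝ) :
    ∑ u, π u * ∑ v, P u v * F v = ∑ v, π v * F v := by
  simp only [Finset.mul_sum]
  rw [Finset.sum_comm]
  refine Finset.sum_congr rfl fun v _ => ?_
  have e1 : ∀ u, π u * (P u v * F v) = π v * F v * P v u := by
    intro u; rw [← mul_assoc, h.reversible]; ring
  simp only [e1, ← Finset.mul_sum, h.row, mul_one]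

theorem claim2 (h : IsReversibleChain P π) (hδ0 : 0 < δ) (hδ1 : δ < 1) (hδ : ∀ z, δ ≤ P z z)
    (y : S) {f g : S → ℝ} (hf : ∀ u, 0 ≤ f u) (hfy : f y = 0) (hgy : g y = 0) :
    δ * (1 - δ) * E2 P π δ f g ≤
      4 * (((∑ u, π u * g u ^ 2) - ∑ u, π u * T P y g u ^ 2) +
        (ip π (T P y f) (fun u => g u ^ 2) - ip π f (fun u => T P y g u ^ 2))) := by
  have hR := RR_nonneg h hδ1 hδ
  have hκ : 0 < δ * (1 - δ) := mul_pos hδ0 (by linarith)
  -- first step: symmetrise
  have s1 : E2 P π δ f g ≤ 4 * ∑ u, π u * ((1 + f u) * ∑ v, RR P δ u v * (g u - g v) ^ 2) := by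
    have e1 : E2 P π δ f g ≤ ∑ u, ∑ v, π u * RR P δ u v *
        ((2 * ((1 + f u) + (1 + f v))) * (g u - g v) ^ 2) := by
      refine Finset.sum_le_sum fun u _ => Finset.sum_le_sum fun v _ => ?_
      refine mul_le_mul_of_nonneg_left ?_ (mul_nonneg (h.pos u).le (hR u v))
      exact mul_le_mul_of_nonneg_right (sqrt_sq_le (hf u) (hf v)) (sq_nonneg _)
    refine e1.trans (le_of_eq ?_)
    have e2 : ∑ u, ∑ v, π u * RR P δ u v * ((1 + f v) * (g u - g v) ^ 2) =
        ∑ u, ∑ v, π u * RR P δ u v * ((1 + f u) * (g u - g v) ^ 2) := by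
      rw [Finset.sum_comm]
      refine Finset.sum_congr rfl fun u _ => Finset.sum_congr rfl fun v _ => ?_
      rw [RR_rev h]; ring
    have e3 : ∑ u, ∑ v, π u * RR P δ u v *
        ((2 * ((1 + f u) + (1 + f v))) * (g u - g v) ^ 2) =
        2 * (∑ u, ∑ v, π u * RR P δ u v * ((1 + f u) * (g u - g v) ^ 2)) +
        2 * ∑ u, ∑ v, π u * RR P δ u v * ((1 + f v) * (g u - g v) ^ 2) := by
      simp only [Finset.mul_sum, ← Finset.sum_add_distrib]
      exact Finset.sum_congr rfl fun u _ => Finset.sum_congr rfl fun v _ => by ring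
    rw [e3, e2]
    have e4 : ∑ u, π u * ((1 + f u) * ∑ v, RR P δ u v * (g u - g v) ^ 2) =
        ∑ u, ∑ v, π u * RR P δ u v * ((1 + f u) * (g u - g v) ^ 2) := by
      refine Finset.sum_congr rfl fun u _ => ?_
      rw [Finset.mul_sum, Finset.mul_sum]
      exact Finset.sum_congr rfl fun v _ => by ring
    rw [e4]; ring
  -- second step: variance
  have s2 : δ * (1 - δ) * ∑ u, π u * ((1 + f u) * ∑ v, RR P δ u v * (g u - g v) ^ 2) ≤
      ∑ u, π u * ((1 + f u) * ((∑ v, P u v * g v ^ 2) - T P y g u ^ 2)) := by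
    rw [Finset.mul_sum]
    refine Finset.sum_le_sum fun u _ => ?_
    have e5 := variance_le h hδ0 hδ1 hδ g u
    have e6 : T P y g u ^ 2 ≤ (∑ v, P u v * g v) ^ 2 := by
      by_cases hu : u = y
      · rw [hu, T_y]; simpa using sq_nonneg _
      · rw [T, if_neg hu]
    have e7 : δ * (1 - δ) * ∑ v, RR P δ u v * (g u - g v) ^ 2 ≤
        (∑ v, P u v * g v ^ 2) - T P y g u ^ 2 := by linarith
    have e8 := mul_le_mul_of_nonneg_left e7
      (mul_nonneg (h.pos u).le (by linarith [hf u] : 0 ≤ 1 + f u))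
    calc δ * (1 - δ) * (π u * ((1 + f u) * ∑ v, RR P δ u v * (g u - g v) ^ 2)) =
        π u * (1 + f u) * (δ * (1 - δ) * ∑ v, RR P δ u v * (g u - g v) ^ 2) := by ring
      _ ≤ _ := e8
      _ = _ := by ring
  -- third step: identities
  have s3 : ∑ u, π u * ((1 + f u) * ((∑ v, P u v * g v ^ 2) - T P y g u ^ 2)) =
      ((∑ u, π u * g u ^ 2) - ∑ u, π u * T P y g u ^ 2) +
        (ip π (T P y f) (fun u => g u ^ 2) - ip π f (fun u => T P y g u ^ 2)) := by
    have e9 : ∀ u, π u * ((1 + f u) * ((∑ v, P u v * g v ^ 2) - T P y g u ^ 2)) =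
        (π u * ∑ v, P u v * g v ^ 2 - π u * T P y g u ^ 2) +
          (π u * (f u * ∑ v, P u v * g v ^ 2) - π u * (f u * T P y g u ^ 2)) := by
      intro u; ring
    simp only [e9, Finset.sum_add_distrib, Finset.sum_sub_distrib]
    rw [stat h (fun v => g v ^ 2)]
    have e10 : ∑ u, π u * (f u * ∑ v, P u v * g v ^ 2) =
        ip π (T P y f) (fun u => g u ^ 2) := by
      have e11 : ip π (T P y f) (fun u => g u ^ 2) = ip π f (T P y (fun u => g u ^ 2)) :=
        ip_T h y hfy (by simp [hgy])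
      rw [e11]
      unfold ip
      refine Finset.sum_congr rfl fun u _ => ?_
      by_cases hu : u = y
      · rw [hu, hfy]; ring
      · rw [T, if_neg hu]
    rw [e10]
    rfl
  calc δ * (1 - δ) * E2 P π δ f g
      ≤ δ * (1 - δ) * (4 * ∑ u, π u * ((1 + f u) * ∑ v, RR P δ u v * (g u - g v) ^ 2)) :=
        mul_le_mul_of_nonneg_left s1 hκ.le
    _ = 4 * (δ * (1 - δ) * ∑ u, π u * ((1 + f u) * ∑ v, RR P δ u v * (g u - g v) ^ 2)) := by ring
    _ ≤ 4 * ∑ u, π u * ((1 + f u) * ((∑ v, P u v * g v ^ 2) - T P y g u ^ 2)) := by linarith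
    _ = _ := by rw [s3]

theorem mass_le (h : IsReversibleChain P π) {y x : S} (hxy : x ≠ y) (s : ℕ) :
    ∑ u, π u * ff P π y x s u ≤ 1 := by
  induction s with
  | zero =>
    simp only [ff, Function.iterate_zero, id, f0]
    rw [Finset.sum_eq_single x]
    · rw [if_pos rfl]
      have := (h.pos x).ne'
      rw [mul_one_div_cancel this]
    · intro u _ hu; rw [if_neg hu]; ring
    · intro hx; exact absurd (Finset.mem_univ x) hx
  | succ s ih =>
    refine le_trans ?_ ih
    rw [ff_succ, ← stat h (ff P π y x s)]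
    refine Finset.sum_le_sum fun u _ => mul_le_mul_of_nonneg_left ?_ (h.pos u).le
    rw [T]
    split_ifs
    · exact Finset.sum_nonneg fun v _ => mul_nonneg (h.nonneg _ _) (ff_nonneg h y x s v)
    · exact le_rfl

theorem psi_init (h : IsReversibleChain P π) (x : S) :
    ∑ u, π u * Psi (f0 π x u) ≤ 4 * max 1 (Real.log (1 / π x)) := by
  have hx0 := h.pos x
  have hx1 : π x ≤ 1 := by
    rw [← h.total]
    exact Finset.single_le_sum (fun u _ => (h.pos u).le) (Finset.mem_univ x)
  rw [Finset.sum_eq_single x]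
  · rw [f0, if_pos rfl, Psi]
    have e1 : π x * ((1 + 1 / π x) * Real.log (1 + 1 / π x)) =
        (1 + π x) * Real.log (1 + 1 / π x) := by field_simp; ring
    rw [e1]
    have e2 : Real.log (1 + 1 / π x) ≤ Real.log 2 + Real.log (1 / π x) := by
      rw [← Real.log_mul (by norm_num) (by positivity)]
      apply Real.log_le_log (by positivity)
      have : 1 ≤ 1 / π x := by rw [le_div_iff₀ hx0]; linarith
      linarith
    have e3 : Real.log 2 ≤ 1 := by
      have := Real.log_two_lt_d9
      linarith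
    have e4 := le_max_left 1 (Real.log (1 / π x))
    have e5 := le_max_right 1 (Real.log (1 / π x))
    have e6 : Real.log (1 + 1 / π x) ≤ 2 * max 1 (Real.log (1 / π x)) := by linarith
    calc (1 + π x) * Real.log (1 + 1 / π x) ≤ 2 * (2 * max 1 (Real.log (1 / π x))) := by
          apply mul_le_mul (by linarith) e6 _ (by norm_num)
          apply Real.log_nonneg
          have : 0 < 1 / π x := by positivity
          linarith
      _ = _ := by ring
  · intro u _ hu
    rw [f0, if_neg hu, Psi_zero, mul_zero]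
  · intro hx; exact absurd (Finset.mem_univ x) hx

/-- **Surprise probabilities of reversible chains with holding probabilities at least `δ`.** -/
theorem main (h : IsReversibleChain P π) (hδ0 : 0 < δ) (hδ1 : δ < 1) (hδ : ∀ z, δ ≤ P z z)
    (x y : S) (n : ℕ) :
    hit P y (n + 1) x ≤ 3 / (δ * (n + 1)) * Real.sqrt (max 1 (Real.log (1 / π x))) := by
  have hn : (0 : ℝ) < n + 1 := by positivity
  by_cases hxy : x = y
  · rw [hit, if_pos hxy]; positivity
  have hR := RR_nonneg h hδ1 hδ
  have hκ : 0 < δ * (1 - δ) := mul_pos hδ0 (by linarith)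
  set D := max 1 (Real.log (1 / π x)) with hD
  have hD1 : 1 ≤ D := le_max_left _ _
  set q := Real.sqrt D with hq
  have hq1 : 1 ≤ q := by rw [hq, Real.one_le_sqrt]; exact hD1
  have hqq : q ^ 2 = D := Real.sq_sqrt (by linarith)
  set f := ff P π y x with hf
  set g := gg P y with hg
  have hfn : ∀ s u, 0 ≤ f s u := ff_nonneg h y x
  have hgn : ∀ s u, 0 ≤ g s u := gg_nonneg h y
  -- the identity for each s
  have hid : ∀ s ∈ Finset.range (n + 1), hit P y (n + 1) x ≤ (1 - δ) / 4 *
      ((3 / (2 * q)) * E1 P π δ (f s) + (2 * q / 3) * E2 P π δ (f s) (g (n - s))) := by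
    intro s hs
    have hsn : s ≤ n := by simpa [Nat.lt_succ_iff] using hs
    have e1 := hit_eq_ip h hxy s (n - s)
    rw [show s + (n - s) + 1 = n + 1 by omega] at e1
    rw [e1]
    have e2 : ip π (ff P π y x s) (fun u => gg P y (n - s) u - gg P y (n - s + 1) u) =
        ip π (f s) (fun u => g (n - s) u - T P y (g (n - s)) u) := by
      rw [gg_succ]
    rw [e2, dirichlet_eq h hδ1 y (ff_y P π hxy s)]
    have e3 : ∑ u, ∑ v, π u * RR P δ u v *
        ((f s u - f s v) * (g (n - s) u - g (n - s) v)) ≤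
        1 / 2 * ((3 / (2 * q)) * E1 P π δ (f s) + (2 * q / 3) * E2 P π δ (f s) (g (n - s))) := by
      rw [E1, E2]
      simp only [Finset.mul_sum, ← Finset.sum_add_distrib]
      refine Finset.sum_le_sum fun u _ => Finset.sum_le_sum fun v _ => ?_
      have hw : 0 ≤ π u * RR P δ u v := mul_nonneg (h.pos u).le (hR u v)
      have qA : Real.sqrt (1 + f s u) ^ 2 = 1 + f s u := Real.sq_sqrt (by linarith [hfn s u])
      have qB : Real.sqrt (1 + f s v) ^ 2 = 1 + f s v := Real.sq_sqrt (by linarith [hfn s v])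
      set a := Real.sqrt (1 + f s u)
      set b := Real.sqrt (1 + f s v)
      set c := g (n - s) u - g (n - s) v
      have e4 : (f s u - f s v) = (a - b) * (a + b) := by
        have : f s u - f s v = a ^ 2 - b ^ 2 := by rw [qA, qB]; ring
        rw [this]; ring
      have e5 : (a - b) * (a + b) * c ≤
          1 / 2 * ((3 / (2 * q)) * (a - b) ^ 2 + (2 * q / 3) * ((a + b) ^ 2 * c ^ 2)) := by
        have hq0 : 0 < q := by linarith
        have e6 : 0 ≤ (3 / (2 * q)) * ((a - b) - (2 * q / 3) * ((a + b) * c)) ^ 2 := by positivity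
        have e7 : (3 / (2 * q)) * ((a - b) - (2 * q / 3) * ((a + b) * c)) ^ 2 =
            (3 / (2 * q)) * (a - b) ^ 2 - 2 * ((a - b) * (a + b) * c) +
              (2 * q / 3) * ((a + b) ^ 2 * c ^ 2) := by
          field_simp; ring
        rw [e7] at e6
        linarith
      rw [e4]
      calc π u * RR P δ u v * ((a - b) * (a + b) * c) ≤ π u * RR P δ u v *
            (1 / 2 * ((3 / (2 * q)) * (a - b) ^ 2 + (2 * q / 3) * ((a + b) ^ 2 * c ^ 2))) :=
            mul_le_mul_of_nonneg_left e5 hw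
        _ = _ := by ring
    have h1δ : 0 ≤ (1 - δ) / 2 := by linarith
    calc (1 - δ) / 2 * ∑ u, ∑ v, π u * RR P δ u v *
        ((f s u - f s v) * (g (n - s) u - g (n - s) v)) ≤ (1 - δ) / 2 * (1 / 2 *
        ((3 / (2 * q)) * E1 P π δ (f s) + (2 * q / 3) * E2 P π δ (f s) (g (n - s)))) :=
          mul_le_mul_of_nonneg_left e3 h1δ
      _ = _ := by ring
  have hsum := Finset.sum_le_sum hid
  rw [Finset.sum_const, Finset.card_range, nsmul_eq_mul, ← Finset.mul_sum,
    Finset.sum_add_distrib, ← Finset.mul_sum, ← Finset.mul_sum] at hsum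
  -- entropy sum
  have hE1 : δ * (1 - δ) * ∑ s ∈ Finset.range (n + 1), E1 P π δ (f s) ≤ 4 * D := by
    have e1 : ∀ s ∈ Finset.range (n + 1), δ * (1 - δ) * E1 P π δ (f s) ≤
        (∑ u, π u * Psi (f s u)) - ∑ u, π u * Psi (f (s + 1) u) := by
      intro s _
      have := claim1 h hδ0 hδ1 hδ y (hfn s)
      rw [hf, ff_succ]
      exact this
    rw [Finset.mul_sum]
    refine (Finset.sum_le_sum e1).trans ?_
    rw [Finset.sum_range_sub' (fun s => ∑ u, π u * Psi (f s u))]
    have e2 : 0 ≤ ∑ u, π u * Psi (f (n + 1) u) :=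
      Finset.sum_nonneg fun u _ => mul_nonneg (h.pos u).le (Psi_nonneg (hfn _ u))
    have e3 := psi_init h x
    have e4 : ∑ u, π u * Psi (f 0 u) = ∑ u, π u * Psi (f0 π x u) := rfl
    rw [e4]
    linarith
  -- martingale sum
  have hE2 : δ * (1 - δ) * ∑ s ∈ Finset.range (n + 1), E2 P π δ (f s) (g (n - s)) ≤ 8 := by
    set a : ℕ → ℝ := fun s => ∑ u, π u * g (n + 1 - s) u ^ 2 with ha
    set c : ℕ → ℝ := fun s => ip π (f s) (fun u => g (n + 1 - s) u ^ 2) with hc
    have e1 : ∀ s ∈ Finset.range (n + 1), δ * (1 - δ) * E2 P π δ (f s) (g (n - s)) ≤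
        4 * ((a (s + 1) - a s) + (c (s + 1) - c s)) := by
      intro s hs
      have hsn : s ≤ n := by simpa [Nat.lt_succ_iff] using hs
      have e2 := claim2 h hδ0 hδ1 hδ y (hfn s) (ff_y P π hxy s) (gg_y P y (n - s))
      have e3 : n + 1 - (s + 1) = n - s := by omega
      have e4 : n + 1 - s = (n - s) + 1 := by omega
      have e5 : T P y (g (n - s)) = g (n - s + 1) := (gg_succ P y (n - s)).symm
      have e6 : T P y (f s) = f (s + 1) := (ff_succ P π y x s).symm
      simp only [ha, hc, e3, e4]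
      rw [← e5, ← e6]
      exact e2
    rw [Finset.mul_sum]
    refine (Finset.sum_le_sum e1).trans ?_
    rw [← Finset.mul_sum, Finset.sum_add_distrib, Finset.sum_range_sub a, Finset.sum_range_sub c]
    have e7 : 0 ≤ a 0 := Finset.sum_nonneg fun u _ => mul_nonneg (h.pos u).le (sq_nonneg _)
    have e8 : 0 ≤ c 0 := Finset.sum_nonneg fun u _ =>
      mul_nonneg (h.pos u).le (mul_nonneg (hfn _ u) (sq_nonneg _))
    have g01 : ∀ u, g 0 u ^ 2 ≤ 1 := by
      intro u
      simp only [hg, gg, Function.iterate_zero, id, g0]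
      split_ifs <;> norm_num
    have e9 : a (n + 1) ≤ 1 := by
      simp only [ha, Nat.sub_self]
      rw [← h.total]
      refine Finset.sum_le_sum fun u _ => ?_
      exact mul_le_of_le_one_right (h.pos u).le (g01 u)
    have e10 : c (n + 1) ≤ 1 := by
      simp only [hc, Nat.sub_self]
      refine le_trans ?_ (mass_le h hxy (n + 1))
      unfold ip
      refine Finset.sum_le_sum fun u _ => mul_le_mul_of_nonneg_left ?_ (h.pos u).le
      exact mul_le_of_le_one_right (hfn _ u) (g01 u)
    linarith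
  -- conclusion
  have hq0 : 0 < q := by linarith
  have h1δ : 0 < 1 - δ := by linarith
  set A1 := ∑ s ∈ Finset.range (n + 1), E1 P π δ (f s)
  set A2 := ∑ s ∈ Finset.range (n + 1), E2 P π δ (f s) (g (n - s))
  have hfin : δ * (((n : ℝ) + 1) * hit P y (n + 1) x) ≤ 3 * q := by
    have e1 : δ * ((1 - δ) / 4 * (3 / (2 * q) * A1 + 2 * q / 3 * A2)) =
        1 / 4 * (3 / (2 * q) * (δ * (1 - δ) * A1) + 2 * q / 3 * (δ * (1 - δ) * A2)) := by ring
    have e2 : 3 / (2 * q) * (δ * (1 - δ) * A1) ≤ 3 / (2 * q) * (4 * D) :=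
      mul_le_mul_of_nonneg_left hE1 (by positivity)
    have e3 : 2 * q / 3 * (δ * (1 - δ) * A2) ≤ 2 * q / 3 * 8 :=
      mul_le_mul_of_nonneg_left hE2 (by positivity)
    have e4 : 3 / (2 * q) * (4 * D) = 6 * q := by
      rw [← hqq]; field_simp; ring
    have hsum' := mul_le_mul_of_nonneg_left hsum hδ0.le
    push_cast at hsum'
    rw [e1] at hsum'
    linarith
  rw [div_mul_eq_mul_div, le_div_iff₀ (by positivity)]
  linarith

end lazy

end Pool.Agent.R983.Surprise
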